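import Pool.Agent.SZT.StmtsC

/-!
SZT, row MIK.
-/

set_option autoImplicit false

namespace Pool.Agent.SZT.H77

open Polynomial NumberField H58Q

theorem mik : MikStatement := by
  intro K _ f A B U W hA
  unfold MI
  rw [Ideal.mem_span_pair]
  constructor
  · rintro ⟨a, b, h⟩
    have h1 := congrArg QuadraticAlgebra.re h
    have h2 := congrArg QuadraticAlgebra.im h
    simp only [QuadraticAlgebra.re_add, QuadraticAlgebra.im_add, QuadraticAlgebra.re_mul,
      QuadraticAlgebra.im_mul] at h1 h2
    obtain ⟨c, hc⟩ := hA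
    refine ⟨a.re + a.im * B - b.im * c, ?_⟩
    rw [← h1, ← h2]
    linear_combination (-b.im) * hc
  · rintro ⟨c, hc⟩
    refine ⟨⟨c, 0⟩, ⟨W, 0⟩, ?_⟩
    ext1
    · simp only [QuadraticAlgebra.re_add, QuadraticAlgebra.re_mul]
      linear_combination -hc
    · simp only [QuadraticAlgebra.im_add, QuadraticAlgebra.im_mul]
      ring

end Pool.Agent.SZT.H77
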