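import Pool.Agent.SZT.StmtsA

set_option autoImplicit false

/-!
# SZT row OKN: nonarchimedean case, `Good2` with `c₀ = 0`, `e = 0`.
-/

namespace Pool.Agent.SZT.H77

open Polynomial Filter Topology
open Pool.Agent.MNT (QU vC)
open Pool.Agent
open scoped Classical

theorem fprod_roots {E : Type} [Field E] (θ : Fin 5 → E) :
    (∏ i, (X - C (θ i))).roots = Finset.univ.val.map θ := by
  have h1 : (∏ p : Fin 5, (X - C (θ p)))
      = ((Finset.univ.val.map θ).map fun a => X - C a).prod := by
    rw [Multiset.map_map]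
    rfl
  rw [h1, roots_multiset_prod_X_sub_C]

theorem fprod_cnt {E : Type} [Field E] (θ : Fin 5 → E) (v : E → ℝ) (ζ : E) (δ : ℝ) :
    BHT.cnt v (∏ i, (X - C (θ i))) ζ δ
      = (Finset.univ.filter fun q => v (θ q - ζ) ≤ δ).card := by
  unfold BHT.cnt
  rw [fprod_roots, Multiset.countP_map]
  rfl

theorem okn (hodn : OdnStmt) : OknStmt := by
  intro E _ v hna θ a N U W hθ hU hsol i R hR hcase
  have hF0 : (∏ i, (X - C (θ i))) ≠ 0 := Finset.prod_ne_zero_iff.2 fun _ _ => X_sub_C_ne_zero _
  have hFs : (∏ i, (X - C (θ i))).Splits := Splits.prod fun _ _ => Splits.X_sub_C _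
  rcases hcase with hA | hB
  · have hkey : ∀ δ ∈ Set.Ioo 0 R, Hm v U.roots a (θ i) δ 0 := by
      intro δ hδ
      refine hodn E v hna _ a N U W hF0 hFs hU hsol (θ i) δ hδ.1 ?_
      rw [fprod_cnt]
      have hS : (Finset.univ.filter fun q => v (θ q - θ i) ≤ δ) = {i} := by
        ext q
        rw [Finset.mem_filter, Finset.mem_singleton]
        constructor
        · rintro ⟨_, h2⟩
          by_contra h3
          exact absurd (hA q h3) (not_le.2 (lt_of_le_of_lt h2 hδ.2))
        · intro h1
          subst h1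
          refine ⟨Finset.mem_univ _, ?_⟩
          rw [sub_self, map_zero]
          exact hδ.1.le
      rw [hS, Finset.card_singleton]
      exact odd_one
    -- the limit
    have hcont : ∀ b : ℝ, Tendsto (fun δ : ℝ => Real.log (max δ b)) (𝓝[<] R)
        (𝓝 (Real.log (max R b))) := by
      intro b
      have h1 : ContinuousAt (fun δ : ℝ => Real.log (max δ b)) R := by
        refine ContinuousAt.log ?_ ?_
        · exact (continuous_id.max continuous_const).continuousAt
        · exact (lt_of_lt_of_le hR (le_max_left _ _)).ne'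
      exact h1.tendsto.mono_left nhdsWithin_le_nhds
    have hev : ∀ᶠ δ in 𝓝[<] R, Hm v U.roots a (θ i) δ 0 := by
      filter_upwards [Ioo_mem_nhdsLT hR] with δ hδ using hkey δ hδ
    refine le_of_tendsto_of_tendsto (b := 𝓝[<] R) ?_ ?_ hev
    · exact tendsto_multiset_sum _ fun ζ _ => hcont (v (ζ - θ i))
    · exact (((hcont (v (a 0 - θ i))).add (hcont (v (a 1 - θ i)))).add_const 0).const_mul _
  · refine hodn E v hna _ a N U W hF0 hFs hU hsol (θ i) R hR ?_
    rw [fprod_cnt]
    have hS : (Finset.univ.filter fun q => v (θ q - θ i) ≤ R) = Finset.univ := by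
      ext q
      rw [Finset.mem_filter]
      refine ⟨fun h => Finset.mem_univ _, fun _ => ⟨Finset.mem_univ _, ?_⟩⟩
      have h1 := hB q
      rwa [Real.exp_zero, one_mul] at h1
    rw [hS, Finset.card_univ, Fintype.card_fin]
    exact ⟨2, rfl⟩

end Pool.Agent.SZT.H77
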